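import Pool.Agent.Helper562.CMDim

/-!
# MP_8bee83_an: sofic mean dimension of infinite groups acting on finite-dimensional spaces

For every infinite sofic group, every sofic approximation sequence and every continuous action on a
finite-dimensional compact metrizable space the sofic mean dimension is `≤ 0`.

Idea: for `N` large a set `J` of `≤ τ d` sites is such that the sites `σ(s) j` (`s ∈ F`, `j ∈ J`,
`|F| = N`) cover all but `τ d` sites. An approximately equivariant map is determined, up to a small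
error and outside a small set of sites, by its values on `J`.
-/

open Filter Topology Set
open Pool.Agent.Helper562.CM (DimLE)

namespace Pool.Agent.Results.MP_8bee83_an.FiniteDimensional

/-- A sofic approximation sequence `(σ i : G → Sym (Fin (d i)))`. -/
structure IsSoficApprox {G : Type*} [Group G] (d : ℕ → ℕ)
    (σ : ∀ i, G → Equiv.Perm (Fin (d i))) : Prop where
  dim : Tendsto d atTop atTop
  mul : ∀ s t : G, Tendsto (fun i =>
    ((Finset.univ.filter (fun k : Fin (d i) => σ i (s * t) k = σ i s (σ i t k))).card : ℝ)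
      / (d i : ℝ)) atTop (𝓝 1)
  free : ∀ s t : G, s ≠ t → Tendsto (fun i =>
    ((Finset.univ.filter (fun k : Fin (d i) => σ i s k ≠ σ i t k)).card : ℝ) / (d i : ℝ))
      atTop (𝓝 1)

/-- Lebesgue covering dimension with values in `[-∞,∞]` (`-∞` for the empty space). `DimLE P n`
says: every finite open cover has a finite open refinement each point of which lies in at most
`n + 1` members. -/
noncomputable def covDim (P : Type*) [TopologicalSpace P] : EReal :=
  ⨅ (n : ℤ) (_ : DimLE P n), ((n : ℝ) : EReal)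

section defs

variable {X : Type*} [MetricSpace X]

/-- `ρ_2`. -/
noncomputable def rho2 {d : ℕ} (φ ψ : Fin d → X) : ℝ :=
  Real.sqrt ((1 / (d : ℝ)) * ∑ l, dist (φ l) (ψ l) ^ 2)

/-- `ρ_∞`. -/
noncomputable def rhoInf {d : ℕ} (φ ψ : Fin d → X) : ℝ := ⨆ l, dist (φ l) (ψ l)

/-- `Widim_ε(Z, ρ_∞)` for `Z ⊆ X^d`: the infimum (a minimum, as dimensions are integers or `±∞`) of
`dim P` over all compact metrizable `P` admitting a continuous `ε`-embedding `Z → P`. -/
noncomputable def widim (ε : ℝ) {d : ℕ} (Z : Set (Fin d → X)) : EReal :=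
  ⨅ (P : Type) (_ : TopologicalSpace P) (_ : CompactSpace P)
    (_ : TopologicalSpace.MetrizableSpace P) (f : Z → P)
    (_ : Continuous f ∧ ∀ z z' : Z, f z = f z' → rhoInf (z : Fin d → X) (z' : Fin d → X) < ε),
    covDim P

/-- `Map(ρ, F, δ, τ)`. -/
def MapSet {G : Type*} [SMul G X] (F : Finset G) (δ : ℝ) {d : ℕ} (τ : G → Equiv.Perm (Fin d)) :
    Set (Fin d → X) :=
  {φ | ∀ s ∈ F, rho2 (fun l => φ (τ s l)) (fun l => s • φ l) ≤ δ}

variable (X) in
/-- The sofic mean dimension. -/
noncomputable def soficMeanDim {G : Type*} [SMul G X] (d : ℕ → ℕ)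
    (σ : ∀ i, G → Equiv.Perm (Fin (d i))) : EReal :=
  ⨆ (ε : ℝ) (_ : 0 < ε), ⨅ (F : Finset G) (δ : ℝ) (_ : 0 < δ),
    limsup (fun i => widim ε (MapSet (X := X) F δ (σ i)) / (((d i : ℝ)) : EReal)) atTop

end defs

/-! ### Step 1: dimension of sets of vectors with few nonzero coordinates -/

lemma dimLE_sparse {κ : Type*} [Fintype κ] [DecidableEq κ] (m : ℕ) {Z : Set (κ → ℝ)}
    (hZ : IsCompact Z) (hm : ∀ z ∈ Z, (Finset.univ.filter (fun i => z i ≠ 0)).card ≤ m) :
    DimLE Z m := by
  have : CompactSpace Z := isCompact_iff_compactSpace.1 hZ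
  refine Pool.Agent.Helper562.CM.dimLE_of_push m (fun z : Z => (z : κ → ℝ)) continuous_subtype_val
    (fun b => ?_) (fun η hη => ⟨η / 2, by positivity, by linarith, fun z => (z : κ → ℝ),
      continuous_subtype_val, fun z => by simpa using hη, fun z => ?_⟩)
  · intro t ht _ x hx y hy
    apply Subtype.ext
    have h1 : (x : κ → ℝ) = b := ht hx
    have h2 : (y : κ → ℝ) = b := ht hy
    rw [h1, h2]
  · refine ⟨Finset.univ.filter (fun i => (z : κ → ℝ) i = 0), ?_, fun i hi => ⟨0, ?_⟩⟩
    · have h1 := hm z z.2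
      have h2 := Finset.card_filter_add_card_filter_not (s := (Finset.univ : Finset κ))
        (fun i => (z : κ → ℝ) i = 0)
      rw [Finset.card_univ] at h2
      simp only [ne_eq] at h1
      omega
    · simpa using (Finset.mem_filter.1 hi).2

/-! ### Step 2: maps into the nerve -/

lemma exists_nerve_map {X : Type*} [MetricSpace X] [CompactSpace X] {n : ℕ} (hX : DimLE X (n : ℤ))
    {β : ℝ} (hβ : 0 < β) : ∃ (r : ℕ) (f : X → Fin r → ℝ), Continuous f ∧ (∀ x v, 0 ≤ f x v) ∧
      (∀ x, ∑ v, f x v = 1) ∧ (∀ x, (Finset.univ.filter (fun v => f x v ≠ 0)).card ≤ n + 1) ∧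
      ∀ x x', f x = f x' → dist x x' < β := by
  classical
  obtain ⟨t, ht⟩ := isCompact_univ.elim_finite_subcover (fun x : X => Metric.ball x (β / 2))
    (fun x => Metric.isOpen_ball) (fun x _ => mem_iUnion.2 ⟨x, Metric.mem_ball_self (by positivity)⟩)
  obtain ⟨𝒱, hfin, hopen, hcov, href, hord⟩ := hX ((fun x => Metric.ball x (β / 2)) '' (t : Set X))
    (t.finite_toSet.image _) (by rintro _ ⟨x, -, rfl⟩; exact Metric.isOpen_ball) (by
      rw [eq_univ_iff_forall]
      intro x
      obtain ⟨y, hy⟩ := mem_iUnion.1 (ht (mem_univ x))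
      obtain ⟨hy1, hy2⟩ := mem_iUnion.1 hy
      exact ⟨_, ⟨y, hy1, rfl⟩, hy2⟩)
  have : Fintype 𝒱 := hfin.fintype
  let e := (Fintype.equivFin 𝒱)
  let U : Fin (Fintype.card 𝒱) → Set X := fun v => (e.symm v : Set X)
  obtain ⟨g, hg⟩ := PartitionOfUnity.exists_isSubordinate (s := (univ : Set X)) isClosed_univ U
    (fun v => hopen _ (e.symm v).2) (by
      intro x _
      have hx : x ∈ ⋃₀ 𝒱 := by rw [hcov]; trivial
      obtain ⟨V, hV, hxV⟩ := hx
      refine mem_iUnion.2 ⟨e ⟨V, hV⟩, ?_⟩
      simpa [U] using hxV)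
  have hmem : ∀ x v, g v x ≠ 0 → x ∈ U v := fun x v hv => hg v (subset_closure hv)
  refine ⟨Fintype.card 𝒱, fun x v => g v x, ?_, fun x v => g.nonneg v x, fun x => ?_, fun x => ?_,
    fun x x' hxx => ?_⟩
  · exact continuous_pi fun v => (g v).continuous
  · rw [← finsum_eq_sum_of_fintype]
    exact g.sum_eq_one (mem_univ x)
  · have h1 := hord x
    have h2 : (Finset.univ.filter (fun v => g v x ≠ 0)).card ≤ {V ∈ 𝒱 | x ∈ V}.ncard := by
      rw [← Set.ncard_coe_finset]
      refine Set.ncard_le_ncard_of_injOn (fun v => (e.symm v : Set X)) ?_ ?_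
        (hfin.subset (sep_subset _ _))
      · intro v hv
        exact ⟨(e.symm v).2, hmem x v (by simpa using hv)⟩
      · intro v _ w _ hvw
        exact e.symm.injective (Subtype.ext hvw)
    have h3 : ((Finset.univ.filter (fun v => g v x ≠ 0)).card : ℤ)
        ≤ ({V ∈ 𝒱 | x ∈ V}.ncard : ℤ) := by exact_mod_cast h2
    exact_mod_cast h3.trans h1
  · obtain ⟨v, hv⟩ : ∃ v, g v x ≠ 0 := by
      by_contra hcon
      push Not at hcon
      have h1 := g.sum_eq_one (mem_univ x)
      rw [finsum_eq_sum_of_fintype] at h1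
      simp [hcon] at h1
    have hv' : g v x' ≠ 0 := by
      have h3 : g v x = g v x' := congrFun hxx v
      rwa [← h3]
    obtain ⟨W, ⟨c, -, rfl⟩, hW⟩ := href _ (e.symm v).2
    have h1 : dist x c < β / 2 := hW (hmem x v hv)
    have h2 : dist x' c < β / 2 := hW (hmem x' v hv')
    calc dist x x' ≤ dist x c + dist c x' := dist_triangle _ _ _
      _ < β := by rw [dist_comm c x']; linarith

/-! ### Step 3: covering most sites -/

lemma exists_cover {d M N : ℕ} (hd : 0 < d) (A : Fin d → Finset (Fin d)) (S : Finset (Fin d))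
    (hA : ∀ k ∈ S, N ≤ (A k).card) : ∃ g : Fin M → Fin d,
      (S.filter (fun k => ∀ r, g r ∉ A k)).card * d ^ M ≤ d * (d - N) ^ M := by
  classical
  by_contra hcon
  push Not at hcon
  have hcount : ∀ k ∈ S, (Finset.univ.filter (fun g : Fin M → Fin d => ∀ r, g r ∉ A k)).card
      ≤ (d - N) ^ M := by
    intro k hk
    have h1 : (Finset.univ.filter (fun g : Fin M → Fin d => ∀ r, g r ∉ A k))
        = Fintype.piFinset (fun _ : Fin M => (A k)ᶜ) := by
      ext g; simp [Fintype.mem_piFinset]
    rw [h1, Fintype.card_piFinset_const, Finset.card_compl, Fintype.card_fin]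
    have := hA k hk
    exact Nat.pow_le_pow_left (by omega) M
  have hdouble : ∑ g : Fin M → Fin d, (S.filter (fun k => ∀ r, g r ∉ A k)).card
      = ∑ k ∈ S, (Finset.univ.filter (fun g : Fin M → Fin d => ∀ r, g r ∉ A k)).card := by
    simp_rw [Finset.card_filter]
    rw [Finset.sum_comm]
  have h1 : ∑ g : Fin M → Fin d, (S.filter (fun k => ∀ r, g r ∉ A k)).card ≤ d * (d - N) ^ M := by
    rw [hdouble]
    calc _ ≤ ∑ k ∈ S, (d - N) ^ M := Finset.sum_le_sum hcount
      _ = S.card * (d - N) ^ M := by rw [Finset.sum_const, smul_eq_mul]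
      _ ≤ d * (d - N) ^ M := by
        gcongr
        calc S.card ≤ Fintype.card (Fin d) := Finset.card_le_univ S
          _ = d := Fintype.card_fin d
  have : Nonempty (Fin d) := ⟨⟨0, hd⟩⟩
  have h2 : ∑ g : Fin M → Fin d, d * (d - N) ^ M
      < ∑ g : Fin M → Fin d, (S.filter (fun k => ∀ r, g r ∉ A k)).card * d ^ M :=
    Finset.sum_lt_sum_of_nonempty Finset.univ_nonempty fun g _ => hcon g
  have h4 : ∑ g : Fin M → Fin d, d * (d - N) ^ M = (d * (d - N) ^ M) * d ^ M := by
    rw [Finset.sum_const, Finset.card_univ, Fintype.card_fun, Fintype.card_fin,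
      Fintype.card_fin, smul_eq_mul, mul_comm]
  rw [h4, ← Finset.sum_mul] at h2
  exact absurd (Nat.mul_le_mul_right (d ^ M) h1) (not_le.2 h2)

/-! ### Step 4: the width of the space of approximately equivariant maps -/

section width

variable {X G : Type*} [MetricSpace X] [CompactSpace X] [Group G] [MulAction G X]
  [ContinuousConstSMul G X]

omit [CompactSpace X] [ContinuousConstSMul G X] in
/-- If `φ ∈ Map(ρ,F,δ,τ)` then for few `(s,j)` the error `ρ(φ(τ_s j), s φ(j))` exceeds `η`. -/
lemma card_error_le {d : ℕ} (hd : 0 < d) (τ : G → Equiv.Perm (Fin d)) {F : Finset G} {δ η : ℝ}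
    (hη : 0 < η) {φ : Fin d → X} (hφ : φ ∈ MapSet F δ τ) {s : G} (hs : s ∈ F) :
    ((Finset.univ.filter (fun j => η < dist (φ (τ s j)) (s • φ j))).card : ℝ) * η ^ 2
      ≤ d * δ ^ 2 := by
  have h1 := hφ s hs
  unfold rho2 at h1
  have hd' : (0:ℝ) < d := by exact_mod_cast hd
  have hδ : 0 ≤ δ := (Real.sqrt_nonneg _).trans h1
  rw [Real.sqrt_le_left hδ] at h1
  have h2 : ∑ l, dist (φ (τ s l)) (s • φ l) ^ 2 ≤ d * δ ^ 2 := by
    calc ∑ l, dist (φ (τ s l)) (s • φ l) ^ 2
        = d * ((1 / (d:ℝ)) * ∑ l, dist (φ (τ s l)) (s • φ l) ^ 2) := by field_simp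
      _ ≤ d * δ ^ 2 := by gcongr
  calc ((Finset.univ.filter (fun j => η < dist (φ (τ s j)) (s • φ j))).card : ℝ) * η ^ 2
      = ∑ j ∈ Finset.univ.filter (fun j => η < dist (φ (τ s j)) (s • φ j)), η ^ 2 := by simp
    _ ≤ ∑ j ∈ Finset.univ.filter (fun j => η < dist (φ (τ s j)) (s • φ j)),
          dist (φ (τ s j)) (s • φ j) ^ 2 := by
        refine Finset.sum_le_sum fun j hj => ?_
        have := (Finset.mem_filter.1 hj).2
        gcongr
    _ ≤ ∑ l, dist (φ (τ s l)) (s • φ l) ^ 2 :=
        Finset.sum_le_sum_of_subset_of_nonneg (Finset.filter_subset _ _) fun j _ _ => by positivity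
    _ ≤ d * δ ^ 2 := h2

lemma isCompact_mapSet {d : ℕ} (τ : G → Equiv.Perm (Fin d)) (F : Finset G) (δ : ℝ) :
    IsCompact (MapSet (X := X) F δ τ) := by
  apply IsClosed.isCompact
  have : MapSet (X := X) F δ τ
      = ⋂ s ∈ F, {φ | rho2 (fun l => φ (τ s l)) (fun l => s • φ l) ≤ δ} := by
    ext φ; simp [MapSet]
  rw [this]
  refine isClosed_biInter fun s _ => isClosed_le ?_ continuous_const
  unfold rho2
  refine Real.continuous_sqrt.comp (continuous_const.mul (continuous_finsetSum _ fun l _ => ?_))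
  exact ((continuous_apply _).dist ((continuous_apply l).const_smul s)).pow 2

/-- The key width estimate. `c k = none` for the free sites, `c k = some (s,j)` for the sites
`k = τ_s j` determined (up to the error) by the free site `j`. -/
lemma widim_le {d : ℕ} (hd : 0 < d) {n E : ℕ} (hX : DimLE X (n : ℤ)) {ε : ℝ} (hε : 0 < ε)
    (τ : G → Equiv.Perm (Fin d)) (F : Finset G) {δ : ℝ}
    (hδ : (F.card : ℝ) * (d * δ ^ 2) ≤ E * (ε / 4) ^ 2)
    (c : Fin d → Option (G × Fin d)) (J : Finset (Fin d))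
    (hnone : ∀ k, c k = none → k ∈ J)
    (hc : ∀ k s j, c k = some (s, j) → s ∈ F ∧ c j = none ∧ τ s j = k) :
    widim ε (MapSet (X := X) F δ τ) ≤ (((n + 1) * (J.card + E) : ℕ) : EReal) := by
  classical
  -- uniform continuity of the action of `F`
  obtain ⟨β, hβ, hβε, hβF⟩ : ∃ β > 0, β ≤ ε ∧ ∀ s ∈ F, ∀ x x' : X, dist x x' < β →
      dist (s • x) (s • x') < ε / 4 := by
    have h1 : ∀ s : G, ∃ β > 0, ∀ x x' : X, dist x x' < β → dist (s • x) (s • x') < ε / 4 := by
      intro s
      have huc : UniformContinuous (fun x : X => s • x) :=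
        CompactSpace.uniformContinuous_of_continuous (continuous_const_smul s)
      obtain ⟨β, hβ, h⟩ := Metric.uniformContinuous_iff.1 huc (ε / 4) (by positivity)
      exact ⟨β, hβ, fun x x' hxx => h hxx⟩
    choose β hβ h using h1
    rcases F.eq_empty_or_nonempty with hF | hF
    · exact ⟨ε, hε, le_rfl, fun s hs => by simp [hF] at hs⟩
    · refine ⟨min ε (F.inf' hF β), ?_, min_le_left _ _, fun s hs x x' hxx => ?_⟩
      · exact lt_min hε ((Finset.lt_inf'_iff _).2 fun s _ => hβ s)
      · exact h s x x' (hxx.trans_le ((min_le_right _ _).trans (Finset.inf'_le _ hs)))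
  obtain ⟨r, f, hfc, hf0, hf1, hfn, hfe⟩ := exists_nerve_map hX hβ
  -- the weights
  let w : Fin d → (Fin d → X) → ℝ := fun k φ =>
    match c k with
    | none => 1
    | some (s, j) => max (dist (φ k) (s • φ j) - ε / 4) 0
  have hwc : ∀ k, Continuous (w k) := by
    intro k
    simp only [w]
    rcases c k with _ | ⟨s, j⟩
    · exact continuous_const
    · exact (((continuous_apply k).dist ((continuous_apply j).const_smul s)).sub
        continuous_const).max continuous_const
  have hw0 : ∀ k φ, 0 ≤ w k φ := by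
    intro k φ
    simp only [w]
    rcases c k with _ | ⟨s, j⟩
    · exact zero_le_one
    · exact le_max_right _ _
  let Ψ : (Fin d → X) → (Fin d × Fin r → ℝ) := fun φ q => w q.1 φ * f (φ q.1) q.2
  have hΨc : Continuous Ψ := by
    refine continuous_pi fun q => (hwc q.1).mul ?_
    exact (continuous_apply q.2).comp (hfc.comp (continuous_apply q.1))
  set Z : Set (Fin d → X) := MapSet (X := X) F δ τ with hZ
  -- recovering the data
  have hrec : ∀ φ ψ, Ψ φ = Ψ ψ → ∀ k, w k φ = w k ψ ∧ (w k φ ≠ 0 → dist (φ k) (ψ k) < β) := by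
    intro φ ψ h k
    have h1 : ∀ v, w k φ * f (φ k) v = w k ψ * f (ψ k) v := fun v => congrFun h (k, v)
    have h2 : w k φ = w k ψ := by
      have h3 : ∑ v, w k φ * f (φ k) v = ∑ v, w k ψ * f (ψ k) v :=
        Finset.sum_congr rfl fun v _ => h1 v
      rw [← Finset.mul_sum, ← Finset.mul_sum, hf1, hf1, mul_one, mul_one] at h3
      exact h3
    refine ⟨h2, fun hne => hfe _ _ (funext fun v => ?_)⟩
    have h3 := h1 v
    rw [← h2] at h3
    exact mul_left_cancel₀ hne h3
  have hemb : ∀ φ ψ, Ψ φ = Ψ ψ → rhoInf φ ψ < ε := by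
    intro φ ψ h
    have : Nonempty (Fin d) := ⟨⟨0, hd⟩⟩
    obtain ⟨k, hk⟩ := exists_eq_ciSup_of_finite (f := fun l => dist (φ l) (ψ l))
    unfold rhoInf
    rw [← hk]
    obtain ⟨h1, h2⟩ := hrec φ ψ h k
    by_cases hw : w k φ = 0
    · rcases hck : c k with _ | ⟨s, j⟩
      · have : w k φ = 1 := by simp only [w, hck]
        rw [this] at hw
        exact absurd hw one_ne_zero
      · obtain ⟨hs, hj, hsj⟩ := hc k s j hck
        have e1 : w k φ = max (dist (φ k) (s • φ j) - ε / 4) 0 := by simp only [w, hck]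
        have e2 : w k ψ = max (dist (ψ k) (s • ψ j) - ε / 4) 0 := by simp only [w, hck]
        have e3 : dist (φ k) (s • φ j) ≤ ε / 4 := by
          have := le_max_left (dist (φ k) (s • φ j) - ε / 4) 0
          rw [← e1, hw] at this
          linarith
        have e4 : dist (ψ k) (s • ψ j) ≤ ε / 4 := by
          have := le_max_left (dist (ψ k) (s • ψ j) - ε / 4) 0
          rw [← e2, ← h1, hw] at this
          linarith
        have e5 : dist (φ j) (ψ j) < β := by
          refine (hrec φ ψ h j).2 ?_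
          have : w j φ = 1 := by simp only [w, hj]
          rw [this]
          exact one_ne_zero
        have e6 := hβF s hs _ _ e5
        calc dist (φ k) (ψ k) ≤ dist (φ k) (s • φ j) + dist (s • φ j) (ψ k) := dist_triangle _ _ _
          _ ≤ dist (φ k) (s • φ j) + (dist (s • φ j) (s • ψ j) + dist (s • ψ j) (ψ k)) := by
              gcongr; exact dist_triangle _ _ _
          _ < ε := by rw [dist_comm (s • ψ j)]; linarith
    · exact (h2 hw).trans_le hβε
  -- sparseness of the image
  have hsparse : ∀ z ∈ Ψ '' Z, (Finset.univ.filter (fun i => z i ≠ 0)).card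
      ≤ (n + 1) * (J.card + E) := by
    rintro _ ⟨φ, hφ, rfl⟩
    -- the sites with nonzero weight
    let B : Finset (Fin d) := Finset.univ.filter (fun k => w k φ ≠ 0)
    have hB : B.card ≤ J.card + E := by
      have h1 : B ⊆ J ∪ B.filter (fun k => c k ≠ none) := by
        intro k hk
        rw [Finset.mem_union, Finset.mem_filter]
        by_cases h : c k = none
        · exact Or.inl (hnone k h)
        · exact Or.inr ⟨hk, h⟩
      refine (Finset.card_le_card h1).trans ((Finset.card_union_le _ _).trans ?_)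
      gcongr
      -- injection into pairs `(s,j)`
      let T : Finset (G × Fin d) := (F ×ˢ Finset.univ).filter
        (fun q => ε / 4 < dist (φ (τ q.1 q.2)) (q.1 • φ q.2))
      have h2 : (B.filter (fun k => c k ≠ none)).card ≤ T.card := by
        refine Finset.card_le_card_of_surjOn (fun q : G × Fin d => τ q.1 q.2) ?_
        intro k hk
        rw [Finset.mem_coe, Finset.mem_filter, Finset.mem_filter] at hk
        obtain ⟨⟨-, hk1⟩, hk2⟩ := hk
        obtain ⟨⟨s, j⟩, hsj⟩ := Option.ne_none_iff_exists'.1 hk2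
        obtain ⟨hs, hj, hsk⟩ := hc k s j hsj
        refine ⟨(s, j), ?_, hsk⟩
        rw [Finset.mem_coe, Finset.mem_filter, Finset.mem_product]
        refine ⟨⟨hs, Finset.mem_univ _⟩, ?_⟩
        simp only [hsk]
        by_contra hcon
        push Not at hcon
        apply hk1
        simp only [w, hsj]
        exact max_eq_right (by linarith)
      have h3 : (T.card : ℝ) * (ε / 4) ^ 2 ≤ F.card * (d * δ ^ 2) := by
        have h4 : T.card = ∑ s ∈ F,
            (Finset.univ.filter (fun j => ε / 4 < dist (φ (τ s j)) (s • φ j))).card := by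
          simp only [T, Finset.card_filter, Finset.sum_product]
        rw [h4]
        push_cast
        rw [Finset.sum_mul]
        calc ∑ s ∈ F, ((Finset.univ.filter
              (fun j => ε / 4 < dist (φ (τ s j)) (s • φ j))).card : ℝ) * (ε / 4) ^ 2
            ≤ ∑ s ∈ F, d * δ ^ 2 :=
              Finset.sum_le_sum fun s hs => card_error_le hd τ (by positivity) hφ hs
          _ = F.card * (d * δ ^ 2) := by simp
      have h5 : (T.card : ℝ) ≤ E := by
        have h6 := h3.trans hδ
        exact le_of_mul_le_mul_right h6 (by positivity)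
      exact h2.trans (by exact_mod_cast h5)
    have h2 : (Finset.univ.filter (fun i : Fin d × Fin r => Ψ φ i ≠ 0)).card
        ≤ ∑ k ∈ B, (Finset.univ.filter (fun v => f (φ k) v ≠ 0)).card := by
      rw [← Finset.card_sigma]
      refine Finset.card_le_card_of_injOn (fun i => ⟨i.1, i.2⟩) ?_ ?_
      · intro i hi
        rw [Finset.mem_coe, Finset.mem_filter] at hi
        have h3 : w i.1 φ * f (φ i.1) i.2 ≠ 0 := hi.2
        rw [Finset.mem_coe, Finset.mem_sigma]
        exact ⟨Finset.mem_filter.2 ⟨Finset.mem_univ _, left_ne_zero_of_mul h3⟩,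
          Finset.mem_filter.2 ⟨Finset.mem_univ _, right_ne_zero_of_mul h3⟩⟩
      · intro i _ j _ hij
        simp only [Sigma.mk.injEq, heq_eq_eq] at hij
        exact Prod.ext hij.1 hij.2
    calc _ ≤ ∑ k ∈ B, (Finset.univ.filter (fun v => f (φ k) v ≠ 0)).card := h2
      _ ≤ ∑ k ∈ B, (n + 1) := Finset.sum_le_sum fun k _ => hfn _
      _ = B.card * (n + 1) := by simp
      _ ≤ (n + 1) * (J.card + E) := by rw [mul_comm]; gcongr
  have hcomp : IsCompact (Ψ '' Z) := (isCompact_mapSet τ F δ).image hΨc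
  have hdim : DimLE (Ψ '' Z) (((n + 1) * (J.card + E) : ℕ) : ℤ) := dimLE_sparse _ hcomp hsparse
  have hcs : CompactSpace (Ψ '' Z) := isCompact_iff_compactSpace.1 hcomp
  unfold widim
  refine iInf_le_of_le (Ψ '' Z : Set (Fin d × Fin r → ℝ)) (iInf_le_of_le inferInstance
    (iInf_le_of_le hcs (iInf_le_of_le inferInstance
      (iInf_le_of_le (fun z => ⟨Ψ z, ⟨z, z.2, rfl⟩⟩) (iInf_le_of_le ⟨?_, ?_⟩ ?_)))))
  · exact (hΨc.comp continuous_subtype_val).subtype_mk _
  · intro z z' h
    exact hemb _ _ (congrArg Subtype.val h)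
  · refine (iInf₂_le _ hdim).trans ?_
    simp

end width

/-! ### Step 5: the selection of the free sites -/

lemma exists_sites {G : Type*} [Group G] [DecidableEq G] {d M : ℕ} (hd : 0 < d) (τ : G → Equiv.Perm (Fin d))
    (F : Finset G) (hNd : F.card ≤ d) :
    ∃ (c : Fin d → Option (G × Fin d)) (J : Finset (Fin d)), (∀ k, c k = none → k ∈ J) ∧
      (∀ k s j, c k = some (s, j) → s ∈ F ∧ c j = none ∧ τ s j = k) ∧
      (J.card : ℝ) ≤ M + d * Real.exp (-((F.card : ℝ) * M / d))
        + ∑ q ∈ (F ×ˢ F).filter (fun q => q.1 ≠ q.2),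
          ((Finset.univ.filter (fun j => τ q.1 j = τ q.2 j)).card : ℝ) := by
  classical
  let A : Fin d → Finset (Fin d) := fun k => F.image (fun s => (τ s)⁻¹ k)
  let S : Finset (Fin d) := Finset.univ.filter (fun k => F.card ≤ (A k).card)
  obtain ⟨g, hg⟩ := exists_cover (M := M) (N := F.card) hd A S (fun k hk => (Finset.mem_filter.1 hk).2)
  let I : Finset (Fin d) := Finset.univ.image g
  let U : Finset (Fin d) := Finset.univ.filter (fun k => ∀ r, g r ∉ A k)
  have hcov : ∀ k, k ∉ I ∪ U → ∃ q : G × Fin d, q.1 ∈ F ∧ q.2 ∈ I ∧ τ q.1 q.2 = k := by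
    intro k hk
    rw [Finset.mem_union, not_or] at hk
    have h1 : ¬ ∀ r, g r ∉ A k := fun h => hk.2 (Finset.mem_filter.2 ⟨Finset.mem_univ _, h⟩)
    push Not at h1
    obtain ⟨r, hr⟩ := h1
    obtain ⟨s, hs, hsr⟩ := Finset.mem_image.1 hr
    refine ⟨(s, g r), hs, Finset.mem_image_of_mem _ (Finset.mem_univ _), ?_⟩
    simp only
    rw [← hsr]
    simp
  choose q hq1 hq2 hq3 using hcov
  refine ⟨fun k => if h : k ∈ I ∪ U then none else some (q k h), I ∪ U, ?_, ?_, ?_⟩
  · intro k hk
    by_contra hcon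
    simp [hcon] at hk
  · intro k s j hk
    by_cases h : k ∈ I ∪ U
    · simp [h] at hk
    · simp only [h, dite_false, Option.some.injEq] at hk
      have h1 : (q k h).1 = s := by rw [hk]
      have h2 : (q k h).2 = j := by rw [hk]
      refine ⟨h1 ▸ hq1 k h, ?_, ?_⟩
      · have h3 : j ∈ I ∪ U := Finset.mem_union_left _ (h2 ▸ hq2 k h)
        simp [h3]
      · have := hq3 k h
        rwa [h1, h2] at this
  · -- the cardinality
    have hd' : (0:ℝ) < d := by exact_mod_cast hd
    have hI : (I.card : ℝ) ≤ M := by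
      have : I.card ≤ (Finset.univ : Finset (Fin M)).card := Finset.card_image_le
      rw [Finset.card_univ, Fintype.card_fin] at this
      exact_mod_cast this
    have hgood : ((S.filter (fun k => ∀ r, g r ∉ A k)).card : ℝ)
        ≤ d * Real.exp (-((F.card : ℝ) * M / d)) := by
      have h1 : ((S.filter (fun k => ∀ r, g r ∉ A k)).card : ℝ) * (d:ℝ) ^ M
          ≤ d * ((d : ℝ) - F.card) ^ M := by
        have : (((S.filter (fun k => ∀ r, g r ∉ A k)).card * d ^ M : ℕ) : ℝ)
            ≤ ((d * (d - F.card) ^ M : ℕ) : ℝ) := by exact_mod_cast hg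
        push_cast [Nat.cast_sub hNd] at this
        exact this
      have h2 : ((d : ℝ) - F.card) ^ M ≤ Real.exp (-((F.card : ℝ) * M / d)) * (d : ℝ) ^ M := by
        have h3 : (d : ℝ) - F.card ≤ Real.exp (-((F.card : ℝ) / d)) * d := by
          have h4 := Real.add_one_le_exp (-((F.card : ℝ) / d))
          calc (d : ℝ) - F.card = (-((F.card : ℝ) / d) + 1) * d := by field_simp; ring
            _ ≤ Real.exp (-((F.card : ℝ) / d)) * d := by gcongr
        have h5 : (0:ℝ) ≤ (d : ℝ) - F.card := by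
          have : (F.card : ℝ) ≤ d := by exact_mod_cast hNd
          linarith
        calc ((d : ℝ) - F.card) ^ M ≤ (Real.exp (-((F.card : ℝ) / d)) * d) ^ M := by gcongr
          _ = Real.exp (-((F.card : ℝ) * M / d)) * (d : ℝ) ^ M := by
              rw [mul_pow, ← Real.exp_nat_mul]
              ring_nf
      have h6 : ((S.filter (fun k => ∀ r, g r ∉ A k)).card : ℝ) * (d:ℝ) ^ M
          ≤ (d * Real.exp (-((F.card : ℝ) * M / d))) * (d : ℝ) ^ M := by
        calc _ ≤ _ := h1
          _ ≤ d * (Real.exp (-((F.card : ℝ) * M / d)) * (d : ℝ) ^ M) := by gcongr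
          _ = _ := by ring
      exact le_of_mul_le_mul_right h6 (by positivity)
    have hbad : ((Finset.univ.filter (fun k => ¬ F.card ≤ (A k).card)).card : ℝ)
        ≤ ∑ q ∈ (F ×ˢ F).filter (fun q => q.1 ≠ q.2),
          ((Finset.univ.filter (fun j => τ q.1 j = τ q.2 j)).card : ℝ) := by
      have h1 : Finset.univ.filter (fun k => ¬ F.card ≤ (A k).card)
          ⊆ ((F ×ˢ F).filter (fun q => q.1 ≠ q.2)).biUnion
            (fun q => (Finset.univ.filter (fun j => τ q.1 j = τ q.2 j)).image (fun j => τ q.1 j)) := by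
        intro k hk
        have hk' := (Finset.mem_filter.1 hk).2
        have h2 : ¬ Set.InjOn (fun s => (τ s)⁻¹ k) (F : Set G) := by
          intro hinj
          exact hk' (Finset.card_image_of_injOn hinj).ge
        unfold Set.InjOn at h2
        push Not at h2
        obtain ⟨s, hs, t, ht, hst, hne⟩ := h2
        rw [Finset.mem_biUnion]
        refine ⟨(s, t), Finset.mem_filter.2 ⟨Finset.mem_product.2 ⟨hs, ht⟩, hne⟩, ?_⟩
        rw [Finset.mem_image]
        refine ⟨(τ s)⁻¹ k, Finset.mem_filter.2 ⟨Finset.mem_univ _, ?_⟩, by simp⟩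
        have h3 : (τ s)⁻¹ k = (τ t)⁻¹ k := hst
        calc τ s ((τ s)⁻¹ k) = k := by simp
          _ = τ t ((τ t)⁻¹ k) := by simp
          _ = τ t ((τ s)⁻¹ k) := by rw [h3]
      have h2 := (Finset.card_le_card h1).trans Finset.card_biUnion_le
      have h3 : (((Finset.univ.filter (fun k => ¬ F.card ≤ (A k).card)).card : ℕ) : ℝ)
          ≤ ((∑ q ∈ (F ×ˢ F).filter (fun q => q.1 ≠ q.2),
            ((Finset.univ.filter (fun j => τ q.1 j = τ q.2 j)).image (fun j => τ q.1 j)).card : ℕ) : ℝ) := by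
        exact_mod_cast h2
      refine h3.trans ?_
      push_cast
      refine Finset.sum_le_sum fun q _ => ?_
      exact_mod_cast Finset.card_image_le
    have hU : (U.card : ℝ) ≤ ((S.filter (fun k => ∀ r, g r ∉ A k)).card : ℝ)
        + ((Finset.univ.filter (fun k => ¬ F.card ≤ (A k).card)).card : ℝ) := by
      have h1 : U ⊆ (S.filter (fun k => ∀ r, g r ∉ A k))
          ∪ (Finset.univ.filter (fun k => ¬ F.card ≤ (A k).card)) := by
        intro k hk
        have hk' := (Finset.mem_filter.1 hk).2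
        rw [Finset.mem_union]
        by_cases h : F.card ≤ (A k).card
        · exact Or.inl (Finset.mem_filter.2 ⟨Finset.mem_filter.2 ⟨Finset.mem_univ _, h⟩, hk'⟩)
        · exact Or.inr (Finset.mem_filter.2 ⟨Finset.mem_univ _, h⟩)
      exact_mod_cast (Finset.card_le_card h1).trans (Finset.card_union_le _ _)
    have hIU : ((I ∪ U).card : ℝ) ≤ I.card + U.card := by
      exact_mod_cast Finset.card_union_le I U
    linarith

/-- **Main theorem.** Every continuous action of an infinite sofic group on a finite-dimensional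
compact metrizable space has sofic mean dimension `≤ 0`, for every sofic approximation sequence and
every compatible metric. -/
theorem result (G : Type*) [Group G] [Countable G] [Infinite G] (d : ℕ → ℕ)
    (σ : ∀ i, G → Equiv.Perm (Fin (d i))) (hσ : IsSoficApprox d σ)
    (X : Type*) [MetricSpace X] [CompactSpace X] [MulAction G X] [ContinuousConstSMul G X]
    (hX : ∃ n : ℤ, DimLE X n) : soficMeanDim X d σ ≤ 0 := by
  classical
  obtain ⟨n, hX⟩ : ∃ n : ℕ, DimLE X (n : ℤ) := by
    obtain ⟨n, hn⟩ := hX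
    exact ⟨n.toNat, hn.mono (Int.self_le_toNat n)⟩
  refine iSup₂_le fun ε hε => ?_
  by_contra hcon
  push Not at hcon
  obtain ⟨t, ht0, ht⟩ := EReal.lt_iff_exists_real_btwn.1 hcon
  have ht0' : 0 < t := by exact_mod_cast ht0
  refine absurd ht (not_lt.2 ?_)
  -- parameters
  set a : ℝ := t / (4 * (n + 1)) with ha
  have ha0 : 0 < a := by positivity
  obtain ⟨N, hN⟩ : ∃ N : ℕ, Real.exp (-(N * (a / 2))) ≤ a := by
    have h1 : Tendsto (fun N : ℕ => Real.exp (-((N : ℝ) * (a / 2)))) atTop (𝓝 0) :=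
      Real.tendsto_exp_neg_atTop_nhds_zero.comp
        (tendsto_natCast_atTop_atTop.atTop_mul_const (by positivity))
    obtain ⟨N, hN⟩ := (h1.eventually (gt_mem_nhds ha0)).exists
    exact ⟨N, hN.le⟩
  obtain ⟨F, hF⟩ := Infinite.exists_subset_card_eq G N
  set δ : ℝ := (ε / 4) * Real.sqrt (a / (2 * (N + 1))) with hδdef
  have hδ : 0 < δ := by positivity
  refine iInf_le_of_le F (iInf_le_of_le δ (iInf_le_of_le hδ ?_))
  refine limsup_le_of_le (by isBoundedDefault) ?_
  have hd1 : Tendsto (fun i => (d i : ℝ)) atTop atTop := tendsto_natCast_atTop_atTop.comp hσ.dim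
  have hbadlim : Tendsto (fun i => ∑ q ∈ (F ×ˢ F).filter (fun q => q.1 ≠ q.2),
      ((Finset.univ.filter (fun j => σ i q.1 j = σ i q.2 j)).card : ℝ) / (d i : ℝ)) atTop (𝓝 0) := by
    rw [← Finset.sum_const_zero (s := (F ×ˢ F).filter (fun q => q.1 ≠ q.2))]
    refine tendsto_finsetSum _ fun q hq => ?_
    have h1 := (hσ.free q.1 q.2 (Finset.mem_filter.1 hq).2).const_sub 1
    rw [sub_self] at h1
    refine h1.congr' ?_
    filter_upwards [hσ.dim.eventually_gt_atTop 0] with i hi
    have hi' : (0:ℝ) < d i := by exact_mod_cast hi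
    have h2 := Finset.card_filter_add_card_filter_not (s := (Finset.univ : Finset (Fin (d i))))
      (fun j => σ i q.1 j = σ i q.2 j)
    rw [Finset.card_univ, Fintype.card_fin] at h2
    have h3 : ((Finset.univ.filter (fun j => σ i q.1 j = σ i q.2 j)).card : ℝ)
        + ((Finset.univ.filter (fun j => σ i q.1 j ≠ σ i q.2 j)).card : ℝ) = d i := by
      exact_mod_cast h2
    rw [eq_div_iff hi'.ne', sub_mul, div_mul_cancel₀ _ hi'.ne']
    linarith
  filter_upwards [hσ.dim.eventually_gt_atTop 0, hσ.dim.eventually_ge_atTop N,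
    hd1.eventually_ge_atTop (2 / a), hbadlim.eventually (gt_mem_nhds ha0)] with i hi0 hiN hia hbad
  have hi0' : (0:ℝ) < d i := by exact_mod_cast hi0
  have had : 2 ≤ a * d i := by
    rw [div_le_iff₀ ha0] at hia
    linarith
  set M : ℕ := ⌊a * d i⌋₊ with hM
  have hM1 : (M : ℝ) ≤ a * d i := Nat.floor_le (by positivity)
  have hM2 : a * d i / 2 ≤ M := by
    have := Nat.lt_floor_add_one (a * d i)
    rw [← hM] at this
    linarith
  obtain ⟨c, J, hJ, hc, hJcard⟩ := exists_sites (M := M) hi0 (σ i) F (hF.trans_le hiN)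
  have hδE : (F.card : ℝ) * (d i * δ ^ 2) ≤ M * (ε / 4) ^ 2 := by
    rw [hF, hδdef, mul_pow, Real.sq_sqrt (by positivity)]
    have h1 : (N : ℝ) / (N + 1) ≤ 1 := by
      rw [div_le_one (by positivity)]
      linarith
    calc (N : ℝ) * (d i * ((ε / 4) ^ 2 * (a / (2 * (N + 1)))))
        = (N : ℝ) / (N + 1) * ((a * d i / 2) * (ε / 4) ^ 2) := by field_simp
      _ ≤ 1 * ((a * d i / 2) * (ε / 4) ^ 2) := by gcongr
      _ ≤ M * (ε / 4) ^ 2 := by rw [one_mul]; gcongr
  have hw := widim_le (X := X) hi0 hX hε (σ i) F hδE c J hJ hc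
  have hden : (0:EReal) < (((d i : ℝ)) : EReal) := by exact_mod_cast hi0'
  rw [EReal.div_le_iff_le_mul hden (EReal.coe_ne_top _), ← EReal.coe_mul]
  refine hw.trans ?_
  have hreal : (((n + 1) * (J.card + M) : ℕ) : ℝ) ≤ d i * t := by
    push_cast
    have h1 : (d i : ℝ) * Real.exp (-((F.card : ℝ) * M / d i)) ≤ a * d i := by
      rw [mul_comm a]
      have h2 : Real.exp (-((F.card : ℝ) * M / d i)) ≤ a := by
        refine le_trans (Real.exp_le_exp.2 ?_) hN
        rw [neg_le_neg_iff, hF, mul_div_assoc]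
        have h3 : a / 2 ≤ M / (d i : ℝ) := by
          rw [le_div_iff₀ hi0']
          linarith
        gcongr
      gcongr
    have h2 : ∑ q ∈ (F ×ˢ F).filter (fun q => q.1 ≠ q.2),
        ((Finset.univ.filter (fun j => σ i q.1 j = σ i q.2 j)).card : ℝ) ≤ a * d i := by
      rw [← Finset.sum_div, div_lt_iff₀ hi0'] at hbad
      exact hbad.le
    have h3 : (J.card : ℝ) + M ≤ 4 * (a * d i) := by linarith
    calc ((n : ℝ) + 1) * ((J.card : ℝ) + M) ≤ ((n : ℝ) + 1) * (4 * (a * d i)) := by gcongr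
      _ = d i * t := by rw [ha]; field_simp
  exact_mod_cast hreal

end Pool.Agent.Results.MP_8bee83_an.FiniteDimensional
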